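import Pool.Agent.N90.UB.Minor
import Pool.Agent.N90.HG.Conv
import Pool.Agent.TH170.GH.Count

/-!
# Short relations
-/

set_option autoImplicit false
set_option linter.unusedSectionVars false

namespace Pool.Agent.N90.UB

open NumberField Module Equiv Pool.Agent.H204R3.CM Pool.Agent.W546.GHC Pool.Agent.H977R3.CM
  Pool.Agent.N90.HG

noncomputable section

variable {ι : Type*} [Fintype ι] {E : ι → Type*} [∀ i, Field (E i)]
  [∀ i, NumberField (E i)] [∀ i, IsCMField (E i)]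
  {L : Type*} [Field L] [NumberField L]
  {Φ : ∀ i, Set (E i →+* ℂ)} (hΦ : ∀ i, IsCMType (Φ i)) (j : L →+* ℂ)

open Classical in
/-- the sign of a conjugate of an embedding -/
def sgn (Φ : ∀ i, Set (E i →+* ℂ)) (j : L →+* ℂ) (σ : L ≃ₐ[ℚ] L) (y : Σ i, (E i →+* L)) : ℤ :=
  if j.comp (σ • y.2) ∈ Φ y.1 then 1 else -1

/-- the complex conjugation -/
def inv (y : Σ i, (E i →+* L)) : Σ i, (E i →+* L) := ⟨y.1, cbar y.2⟩

theorem inv_inv' (y : Σ i, (E i →+* L)) : inv (inv y) = y := by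
  obtain ⟨i, φ⟩ := y
  change (⟨i, cbar (cbar φ)⟩ : Σ i, (E i →+* L)) = ⟨i, φ⟩
  rw [cbar_cbar]

theorem inv_ne (y : Σ i, (E i →+* L)) : inv y ≠ y := by
  obtain ⟨i, φ⟩ := y
  intro hy
  simp only [inv, Sigma.mk.injEq, heq_eq_eq, true_and] at hy
  exact cbar_ne φ hy

include hΦ in
theorem sgn_inv (σ : L ≃ₐ[ℚ] L) (y : Σ i, (E i →+* L)) :
    sgn Φ j σ (inv y) = -sgn Φ j σ y := by
  classical
  obtain ⟨i, φ⟩ := y
  have h3 : j.comp (σ • cbar φ) = ComplexEmbedding.conjugate (j.comp (σ • φ)) := by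
    rw [← comp_cbar]
    rfl
  change (if j.comp (σ • cbar φ) ∈ Φ i then (1 : ℤ) else -1) =
    -(if j.comp (σ • φ) ∈ Φ i then (1 : ℤ) else -1)
  rw [h3]
  by_cases h4 : j.comp (σ • φ) ∈ Φ i
  · rw [if_pos h4, if_neg ((hΦ i _).1 h4)]
  · rw [if_neg h4, if_pos (conj_mem hΦ h4), neg_neg]

theorem sgn_eq (σ : L ≃ₐ[ℚ] L) (y : Σ i, (E i →+* L)) :
    sgn Φ j σ y = 1 ∨ sgn Φ j σ y = -1 := by
  unfold sgn
  split_ifs
  · exact Or.inl rfl
  · exact Or.inr rfl

theorem isRel_iff_sum (c : ∀ i, (E i →+* L) → ℤ) : IsRel Φ j c ↔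
    (∀ y : Σ i, (E i →+* L), c (inv y).1 (inv y).2 = -c y.1 y.2) ∧
      ∀ σ, ∑ y : Σ i, (E i →+* L), c y.1 y.2 * sgn Φ j σ y = 0 := by
  unfold IsRel
  constructor
  · rintro ⟨h1, h2⟩
    refine ⟨fun y => h1 y.1 y.2, fun σ => ?_⟩
    rw [Fintype.sum_sigma]
    exact h2 σ
  · rintro ⟨h1, h2⟩
    refine ⟨fun i φ => h1 ⟨i, φ⟩, fun σ => ?_⟩
    have h3 := h2 σ
    rw [Fintype.sum_sigma] at h3
    exact h3

/-- the number of embeddings -/
theorem card_emb (h : ∀ i, ∀ ψ : E i →+* ℂ, ∃ φ : E i →+* L, j.comp φ = ψ) :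
    Fintype.card (Σ i, (E i →+* L)) = ∑ i, finrank ℚ (E i) := by
  rw [Fintype.card_sigma]
  refine Finset.sum_congr rfl fun i _ => ?_
  rw [← Embeddings.card (E i) ℂ]
  refine Fintype.card_of_bijective (f := fun φ : E i →+* L => j.comp φ) ⟨?_, h i⟩
  intro φ φ' hφ
  exact RingHom.ext fun x => j.injective (RingHom.congr_fun hφ x)

include hΦ in
/-- **Short relations.** If there is a nonzero relation between the conjugates of the CM types, there
is a nonzero relation with coefficients bounded by `k ^ (k / 2) / 2 ^ (k - 1)`, where `k + 1` is the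
dimension. -/
theorem small_rel (h : ∀ i, ∀ ψ : E i →+* ℂ, ∃ φ : E i →+* L, j.comp φ = ψ) {k : ℕ}
    (hk : ∑ i, finrank ℚ (E i) = 2 * (k + 1)) (c : ∀ i, (E i →+* L) → ℤ) (hc : IsRel Φ j c)
    (hne : ∃ i φ, c i φ ≠ 0) :
    ∃ c' : ∀ i, (E i →+* L) → ℤ, IsRel Φ j c' ∧ (∃ i φ, c' i φ ≠ 0) ∧
      ∀ i φ, 4 ^ (k - 1) * (c' i φ) ^ 2 ≤ (k : ℤ) ^ k := by
  classical
  rw [isRel_iff_sum] at hc
  obtain ⟨hodd, hsum⟩ := hc
  obtain ⟨H, hH, hHcard⟩ := Pool.Agent.TH170.GH.exists_half (X := Σ i, (E i →+* L)) inv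
    inv_inv' inv_ne (N := k + 1) (by rw [card_emb j h, hk])
  let e : Fin (k + 1) ≃ H := (Fintype.equivFinOfCardEq (by rw [Fintype.card_coe, hHcard])).symm
  -- the sum over the half set
  have hhalf : ∀ F : (Σ i, (E i →+* L)) → ℤ, (∀ y, F (inv y) = F y) →
      ∑ y, F y = 2 * ∑ l, F (e l) := by
    intro F hF
    have h1 : ∑ l, F (e l) = ∑ y ∈ H, F y := by
      rw [Fintype.sum_equiv e (fun l => F (e l)) (fun y : H => F y) (fun _ => rfl)]
      exact Finset.sum_coe_sort H F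
    have h2 : ∑ y, F y = ∑ y ∈ H, F y + ∑ y ∈ Hᶜ, F y := (Finset.sum_add_sum_compl H F).symm
    have h3 : ∑ y ∈ Hᶜ, F y = ∑ y ∈ H, F y := by
      refine Finset.sum_nbij' inv inv ?_ ?_ (fun y _ => inv_inv' y) (fun y _ => inv_inv' y) ?_
      · intro y hy
        rw [Finset.mem_compl] at hy
        exact (hH y).1 hy
      · intro y hy
        rw [Finset.mem_compl, hH, inv_inv']
        exact hy
      · intro y _
        exact (hF y).symm
    rw [h2, h3, h1]
    ring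
  have hcases : ∀ y, y ∈ H ∨ inv y ∈ H := by
    intro y
    by_cases hy : y ∈ H
    · exact Or.inl hy
    · exact Or.inr ((hH y).1 hy)
  obtain ⟨z, hz0, hz, hzle⟩ := exists_small (R := L ≃ₐ[ℚ] L) k
    (fun σ l => sgn Φ j σ (e l)) (fun σ l => sgn_eq j σ _)
    ⟨fun l => (c (e l).1.1 (e l).1.2 : ℚ), by
      intro h0
      obtain ⟨i, φ, hφ⟩ := hne
      apply hφ
      have h1 : ∀ y ∈ H, c y.1 y.2 = 0 := by
        intro y hy
        have h2 := congrFun h0 (e.symm ⟨y, hy⟩)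
        rw [Equiv.apply_symm_apply] at h2
        simpa using h2
      rcases hcases ⟨i, φ⟩ with h2 | h2
      · exact h1 _ h2
      · have h3 := h1 _ h2
        rw [hodd] at h3
        simpa using h3, by
      intro σ
      have h1 := hhalf (fun y => c y.1 y.2 * sgn Φ j σ y) (fun y => by
        rw [hodd, sgn_inv hΦ]
        ring)
      rw [hsum] at h1
      have h2 := (mul_eq_zero.1 h1.symm).resolve_left two_ne_zero
      have h3 : ((∑ l, c (e l).1.1 (e l).1.2 * sgn Φ j σ (e l) : ℤ) : ℚ) = 0 := by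
        rw [h2, Int.cast_zero]
      push_cast at h3
      rw [← h3]
      exact Finset.sum_congr rfl fun l _ => mul_comm _ _⟩
  let cc : (Σ i, (E i →+* L)) → ℤ := fun y => if hy : y ∈ H then z (e.symm ⟨y, hy⟩) else
    -z (e.symm ⟨inv y, (hH y).1 hy⟩)
  have hcce : ∀ l, cc (e l) = z l := by
    intro l
    simp only [cc]
    rw [dif_pos (e l).2]
    simp
  have hccinv : ∀ y, cc (inv y) = -cc y := by
    have h1 : ∀ y, y ∈ H → cc (inv y) = -cc y := by
      intro y hy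
      have h2 : inv y ∉ H := by
        rw [hH, inv_inv']
        exact hy
      simp only [cc]
      rw [dif_neg h2, dif_pos hy]
      simp only [inv_inv']
    intro y
    rcases hcases y with h2 | h2
    · exact h1 y h2
    · have h3 := h1 _ h2
      rw [inv_inv'] at h3
      rw [h3, neg_neg]
  refine ⟨fun i φ => cc ⟨i, φ⟩, ?_, ?_, ?_⟩
  · rw [isRel_iff_sum]
    refine ⟨fun y => hccinv y, fun σ => ?_⟩
    change ∑ y, cc y * sgn Φ j σ y = 0
    rw [hhalf (fun y => cc y * sgn Φ j σ y) (fun y => by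
      rw [hccinv, sgn_inv hΦ]
      ring)]
    have h1 := hz σ
    simp only [hcce]
    rw [Finset.sum_congr rfl (fun l _ => mul_comm (z l) _), h1, mul_zero]
  · by_contra hcon
    push Not at hcon
    apply hz0
    funext l
    have h1 := hcon (e l).1.1 (e l).1.2
    have h2 : cc (e l) = 0 := h1
    rw [hcce] at h2
    exact h2
  · intro i φ
    have h1 : ∀ y, 4 ^ (k - 1) * (cc y) ^ 2 ≤ (k : ℤ) ^ k := by
      intro y
      simp only [cc]
      split_ifs with hy
      · exact hzle _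
      · rw [neg_sq]
        exact hzle _
    exact h1 ⟨i, φ⟩

include hΦ in
/-- **The bound.** If, for an abelian variety with the factors `A i` of multiplicity at least `N`,
all Hodge classes are generated in degree two, the same holds for all products. -/
theorem generated_of_generated {J J' : Type*} [Fintype J] [Fintype J'] (t : J → ι) (t' : J' → ι)
    (hsep : Separated Φ) [IsGalois ℚ L]
    (h : ∀ i, ∀ ψ : E i →+* ℂ, ∃ φ : E i →+* L, j.comp φ = ψ) {k N : ℕ}
    (hk : ∑ i, finrank ℚ (E i) = 2 * (k + 1)) (hN : k ^ k < 4 ^ (k - 1) * (N + 1) ^ 2)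
    (ht : ∀ i, N ≤ mult t i) (hgen : HodgeGenerated (per Φ t)) : HodgeGenerated (per Φ t') := by
  refine hodge_of_bounded hΦ t' j h fun c hc _ => ?_
  by_contra hcon
  push Not at hcon
  obtain ⟨i, φ, hφ⟩ := hcon
  obtain ⟨c', hc', hne, hle⟩ := small_rel hΦ j h hk c hc ⟨i, φ, hφ⟩
  refine not_generated_of_rel hΦ t j hsep h c' hc' (fun i φ => ?_) hne hgen
  have h1 := hle i φ
  have h2 : (c' i φ) ^ 2 < ((N : ℤ) + 1) ^ 2 := by
    have h3 : (4 : ℤ) ^ (k - 1) * (c' i φ) ^ 2 < 4 ^ (k - 1) * ((N : ℤ) + 1) ^ 2 := by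
      refine lt_of_le_of_lt h1 ?_
      exact_mod_cast hN
    exact lt_of_mul_lt_mul_left h3 (by positivity)
  have h4 := abs_lt_of_sq_lt_sq h2 (by positivity)
  have h5 : (N : ℤ) ≤ mult t i := by exact_mod_cast ht i
  have h6 : |c' i φ| < (N : ℤ) + 1 := h4
  linarith [Int.lt_add_one_iff.1 h6]

end

end Pool.Agent.N90.UB
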