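import Mathlib
import Pool.Agent.H524R2.Forster

/-!
# Small vectors in the kernels of sign matrices
-/

set_option autoImplicit false
set_option linter.unusedSectionVars false

namespace Pool.Agent.N90.UB

open Matrix Finset Module

/-- The determinant of a sign matrix of order `k + 1` is divisible by `2 ^ k`. -/
theorem det_dvd {k : ℕ} (M : Matrix (Fin (k + 1)) (Fin (k + 1)) ℤ)
    (hM : ∀ i j, M i j = 1 ∨ M i j = -1) : (2 : ℤ) ^ k ∣ M.det := by
  let c : Fin (k + 1) → ℤ := fun i => if i = 0 then 0 else 1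
  let A : Matrix (Fin (k + 1)) (Fin (k + 1)) ℤ := Matrix.of fun i j => M i j + c i * M 0 j
  have h1 : A.det = M.det :=
    Matrix.det_eq_of_forall_row_eq_smul_add_const c 0 (by simp [c]) (fun i j => by simp [A])
  let v : Fin (k + 1) → ℤ := fun i => if i = 0 then 1 else 2
  have h2 : ∀ i j, ∃ b : ℤ, A i j = v i * b := by
    intro i j
    by_cases hi : i = 0
    · exact ⟨A i j, by simp [v, hi]⟩
    · rcases hM i j with h | h <;> rcases hM 0 j with h' | h'
      · exact ⟨1, by simp [A, v, c, hi, h, h']⟩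
      · exact ⟨0, by simp [A, v, c, hi, h, h']⟩
      · exact ⟨0, by simp [A, v, c, hi, h, h']⟩
      · exact ⟨-1, by simp [A, v, c, hi, h, h']⟩
  choose B hB using h2
  have h3 : A = Matrix.of fun i j => v i * (Matrix.of B) i j := by
    ext i j
    exact hB i j
  have h4 : A.det = (∏ i, v i) * (Matrix.of B).det := by
    rw [h3]
    exact Matrix.det_mul_column v (Matrix.of B)
  have h5 : ∏ i, v i = 2 ^ k := by
    rw [Fin.prod_univ_succ]
    simp [v, Fin.succ_ne_zero]
  rw [← h1, h4, h5]
  exact dvd_mul_right _ _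

/-- Hadamard's inequality for sign matrices. -/
theorem det_sq_le {k : ℕ} (M : Matrix (Fin k) (Fin k) ℤ)
    (hM : ∀ i j, M i j = 1 ∨ M i j = -1) : M.det ^ 2 ≤ (k : ℤ) ^ k := by
  have h1 := Pool.Agent.H524R2.hadamard_ineq (M.map (Int.cast : ℤ → ℝ))
  have h2 : (M.map (Int.cast : ℤ → ℝ)).det = (M.det : ℝ) := by
    have := RingHom.map_det (Int.castRingHom ℝ) M
    rw [eq_intCast] at this
    exact this.symm
  have h3 : ∀ i, (M.map (Int.cast : ℤ → ℝ)) i ⬝ᵥ (M.map (Int.cast : ℤ → ℝ)) i = k := by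
    intro i
    unfold dotProduct
    have h4 : ∀ j, (M.map (Int.cast : ℤ → ℝ)) i j * (M.map (Int.cast : ℤ → ℝ)) i j = 1 := by
      intro j
      rw [Matrix.map_apply]
      rcases hM i j with h | h <;> rw [h] <;> norm_num
    rw [Finset.sum_congr rfl (fun j _ => h4 j)]
    simp
  rw [h2, Finset.prod_congr rfl (fun i _ => h3 i)] at h1
  simp only [Finset.prod_const, Finset.card_univ, Fintype.card_fin] at h1
  exact_mod_cast h1

/-- the vector of minors -/
theorem exists_minors {k : ℕ} (ρ : Fin k → Fin (k + 1) → ℤ)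
    (hρ : ∀ i j, ρ i j = 1 ∨ ρ i j = -1)
    (hli : LinearIndependent ℚ (fun i => (fun j => (ρ i j : ℚ) : Fin (k + 1) → ℚ))) :
    ∃ y : Fin (k + 1) → ℤ, y ≠ 0 ∧ (∀ j, 4 ^ (k - 1) * y j ^ 2 ≤ (k : ℤ) ^ k) ∧
      ∀ w : Fin (k + 1) → ℤ, (fun j => (w j : ℚ)) ∈
        Submodule.span ℚ (Set.range (fun i => (fun j => (ρ i j : ℚ) : Fin (k + 1) → ℚ))) →
        ∑ j, w j * y j = 0 := by
  -- the full determinant
  let D : (Fin (k + 1) → ℤ) → ℤ := fun w => (Matrix.of (Fin.cons w ρ : Fin (k + 1) → Fin (k + 1) → ℤ)).det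
  let mn : Fin (k + 1) → Matrix (Fin k) (Fin k) ℤ := fun j =>
    Matrix.of fun i l => ρ i (j.succAbove l)
  have hD : ∀ w, D w = ∑ j : Fin (k + 1), (-1) ^ (j : ℕ) * w j * (mn j).det := by
    intro w
    simp only [D]
    rw [Matrix.det_succ_row_zero]
    rfl
  -- division by the power of two
  obtain ⟨e, he, hdiv⟩ : ∃ e : ℤ, 0 < e ∧ (∀ j, e ∣ (mn j).det) ∧ e ^ 2 = 4 ^ (k - 1) := by
    cases k with
    | zero => exact ⟨1, one_pos, fun j => one_dvd _, by norm_num⟩
    | succ k =>
      refine ⟨2 ^ k, by positivity, fun j => det_dvd (mn j) fun i l => hρ i _, ?_⟩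
      rw [← pow_mul, mul_comm, pow_mul]
      norm_num
  obtain ⟨hdiv, he2⟩ := hdiv
  choose d hd using hdiv
  let y : Fin (k + 1) → ℤ := fun j => (-1) ^ (j : ℕ) * d j
  have hDy : ∀ w, D w = e * ∑ j, w j * y j := by
    intro w
    rw [hD, Finset.mul_sum]
    refine Finset.sum_congr rfl fun j _ => ?_
    rw [hd j]
    simp only [y]
    ring
  have hcast : ∀ w : Fin (k + 1) → ℤ, ((D w : ℤ) : ℚ) =
      (Matrix.of (Fin.cons (fun j => (w j : ℚ))
        (fun i => (fun j => (ρ i j : ℚ) : Fin (k + 1) → ℚ)) : Fin (k + 1) → Fin (k + 1) → ℚ)).det := by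
    intro w
    have h1 := RingHom.map_det (Int.castRingHom ℚ)
      (Matrix.of (Fin.cons w ρ : Fin (k + 1) → Fin (k + 1) → ℤ))
    rw [eq_intCast] at h1
    simp only [D]
    rw [h1]
    congr 1
    ext i j
    refine Fin.cases ?_ (fun i => ?_) i
    · rfl
    · rfl
  refine ⟨y, ?_, ?_, ?_⟩
  · intro hy
    -- some standard basis vector is not in the span
    have h1 : ∃ j : Fin (k + 1), (Pi.single j (1 : ℚ) : Fin (k + 1) → ℚ) ∉
        Submodule.span ℚ (Set.range (fun i => (fun j => (ρ i j : ℚ) : Fin (k + 1) → ℚ))) := by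
      by_contra hcon
      push Not at hcon
      have h2 : (⊤ : Submodule ℚ (Fin (k + 1) → ℚ)) ≤
          Submodule.span ℚ (Set.range (fun i => (fun j => (ρ i j : ℚ) : Fin (k + 1) → ℚ))) := by
        intro x _
        rw [pi_eq_sum_univ' x]
        exact Submodule.sum_mem _ fun j _ => Submodule.smul_mem _ _ (hcon j)
      have h3 := Submodule.finrank_mono h2
      have h4 := finrank_range_le_card (R := ℚ)
        (fun i => (fun j => (ρ i j : ℚ) : Fin (k + 1) → ℚ))
      rw [finrank_top, Module.finrank_fin_fun] at h3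
      rw [Fintype.card_fin] at h4
      unfold Set.finrank at h4
      omega
    obtain ⟨j, hj⟩ := h1
    have h2 : LinearIndependent ℚ (Fin.cons (Pi.single j (1 : ℚ))
        (fun i => (fun j => (ρ i j : ℚ) : Fin (k + 1) → ℚ)) : Fin (k + 1) → Fin (k + 1) → ℚ) :=
      linearIndependent_finCons.2 ⟨hli, hj⟩
    have h3 : IsUnit (Matrix.of (Fin.cons (Pi.single j (1 : ℚ))
        (fun i => (fun j => (ρ i j : ℚ) : Fin (k + 1) → ℚ)) : Fin (k + 1) → Fin (k + 1) → ℚ)) :=
      Matrix.linearIndependent_rows_iff_isUnit.1 h2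
    have h4 := (Matrix.isUnit_iff_isUnit_det _).1 h3
    have h5 := hcast (Pi.single j 1)
    have h6 : (fun l => (((Pi.single j (1 : ℤ) : Fin (k + 1) → ℤ) l : ℤ) : ℚ)) =
        (Pi.single j (1 : ℚ) : Fin (k + 1) → ℚ) := by
      funext l
      by_cases hl : l = j
      · subst hl
        simp
      · simp [hl]
    rw [h6] at h5
    rw [← h5, hDy, hy] at h4
    simp at h4
  · intro j
    have h1 := det_sq_le (mn j) fun i l => hρ i _
    rw [hd j, mul_pow, he2] at h1
    have h2 : y j ^ 2 = d j ^ 2 := by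
      simp only [y]
      rw [mul_pow, ← pow_mul, mul_comm (j : ℕ) 2, pow_mul]
      norm_num
    rw [h2]
    exact h1
  · intro w hw
    have h1 : ((D w : ℤ) : ℚ) = 0 := by
      rw [hcast]
      by_contra hne
      have h2 : IsUnit (Matrix.of (Fin.cons (fun j => (w j : ℚ))
        (fun i => (fun j => (ρ i j : ℚ) : Fin (k + 1) → ℚ)) :
          Fin (k + 1) → Fin (k + 1) → ℚ)) := (Matrix.isUnit_iff_isUnit_det _).2 (isUnit_iff_ne_zero.2 hne)
      have h3 : LinearIndependent ℚ (Fin.cons (fun j => (w j : ℚ))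
        (fun i => (fun j => (ρ i j : ℚ) : Fin (k + 1) → ℚ)) :
          Fin (k + 1) → Fin (k + 1) → ℚ) := Matrix.linearIndependent_rows_iff_isUnit.2 h2
      exact (linearIndependent_finCons.1 h3).2 hw
    have h2 : D w = 0 := by exact_mod_cast h1
    rw [hDy] at h2
    exact (mul_eq_zero.1 h2).resolve_left he.ne'

theorem four_mul_pow_le (k : ℕ) (hk : 1 ≤ k) : 4 * k ^ k ≤ (k + 1) ^ (k + 1) := by
  have h1 : k ^ k + k * k ^ (k - 1) ≤ (k + 1) ^ k := by
    have h2 := add_pow k 1 k
    rw [h2]
    obtain ⟨l, rfl⟩ : ∃ l, k = l + 1 := ⟨k - 1, by omega⟩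
    rw [Finset.sum_range_succ, Finset.sum_range_succ]
    simp
    nlinarith [Nat.zero_le (∑ x ∈ Finset.range l, (l + 1) ^ x * (l + 1).choose x)]
  have h3 : k * k ^ (k - 1) = k ^ k := by
    rw [mul_comm, ← pow_succ, Nat.sub_add_cancel hk]
  rw [h3] at h1
  calc 4 * k ^ k = 2 * (k ^ k + k ^ k) := by ring
    _ ≤ (k + 1) * (k + 1) ^ k := Nat.mul_le_mul (by omega) h1
    _ = _ := by rw [pow_succ, mul_comm]

/-- **Small kernel vectors.** If a sign matrix with `k + 1` columns has a nonzero rational vector in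
its kernel, it has a nonzero integral one with entries at most `k ^ (k / 2) / 2 ^ (k - 1)`. -/
theorem exists_small {R : Type*} [Nonempty R] : ∀ (k : ℕ) (M : R → Fin (k + 1) → ℤ),
    (∀ r j, M r j = 1 ∨ M r j = -1) →
    (∃ x : Fin (k + 1) → ℚ, x ≠ 0 ∧ ∀ r, ∑ j, (M r j : ℚ) * x j = 0) →
    ∃ y : Fin (k + 1) → ℤ, y ≠ 0 ∧ (∀ r, ∑ j, M r j * y j = 0) ∧
      ∀ j, 4 ^ (k - 1) * y j ^ 2 ≤ (k : ℤ) ^ k := by
  intro k
  induction k with
  | zero =>
    rintro M hM ⟨x, hx, hMx⟩
    exfalso
    apply hx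
    funext j
    obtain ⟨r⟩ := ‹Nonempty R›
    have h1 := hMx r
    rw [Fin.sum_univ_one] at h1
    have h2 : (M r 0 : ℚ) ≠ 0 := by
      rcases hM r 0 with h | h <;> rw [h] <;> norm_num
    have h3 : j = 0 := Fin.fin_one_eq_zero j
    rw [h3]
    exact (mul_eq_zero.1 h1).resolve_left h2
  | succ k ih =>
    rintro M hM ⟨x, hx, hMx⟩
    let S : Set (Fin (k + 2) → ℚ) := Set.range fun r => (fun j => (M r j : ℚ))
    have hd : finrank ℚ (Submodule.span ℚ S) ≤ k + 1 := by
      -- the span is contained in the kernel of a nonzero functional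
      let T : (Fin (k + 2) → ℚ) →ₗ[ℚ] ℚ := ∑ j, x j • LinearMap.proj j
      have hT : ∀ w, T w = ∑ j, w j * x j := by
        intro w
        simp only [T, LinearMap.sum_apply, LinearMap.smul_apply, LinearMap.proj_apply, smul_eq_mul]
        exact Finset.sum_congr rfl fun j _ => mul_comm _ _
      have h1 : Submodule.span ℚ S ≤ LinearMap.ker T := by
        rw [Submodule.span_le]
        rintro _ ⟨r, rfl⟩
        change T _ = 0
        rw [hT]
        exact hMx r
      have h2 : LinearMap.ker T ≠ ⊤ := by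
        intro h3
        apply hx
        funext j
        have h4 : (Pi.single j (1 : ℚ) : Fin (k + 2) → ℚ) ∈ LinearMap.ker T := by
          rw [h3]
          trivial
        have h5 : T (Pi.single j (1 : ℚ)) = 0 := h4
        rw [hT] at h5
        simpa [Pi.single_apply] using h5
      have h3 := Submodule.finrank_mono h1
      have h4 := Submodule.finrank_lt h2
      rw [Module.finrank_fin_fun] at h4
      omega
    obtain ⟨f, hf, hspan, hli⟩ := Submodule.exists_fun_fin_finrank_span_eq ℚ S
    rcases Nat.lt_or_ge (finrank ℚ (Submodule.span ℚ S)) (k + 1) with hlt | hge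
    · -- drop the last column
      let T : (Fin (k + 1) → ℚ) →ₗ[ℚ] (Fin (finrank ℚ (Submodule.span ℚ S)) → ℚ) :=
        LinearMap.pi fun i => ∑ j, f i (Fin.castSucc j) • LinearMap.proj j
      have hT : ∀ w i, T w i = ∑ j, f i (Fin.castSucc j) * w j := by
        intro w i
        simp [T]
      have h1 : LinearMap.ker T ≠ ⊥ := by
        apply LinearMap.ker_ne_bot_of_finrank_lt
        rw [Module.finrank_fin_fun, Module.finrank_fin_fun]
        exact hlt
      obtain ⟨x', hx', hx0⟩ := Submodule.exists_mem_ne_zero_of_ne_bot h1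
      have hx'' : ∀ i, ∑ j, f i (Fin.castSucc j) * x' j = 0 := by
        intro i
        rw [← hT]
        have h2 : T x' = 0 := hx'
        rw [h2]
        rfl
      have hall : ∀ w ∈ Submodule.span ℚ S, ∑ j : Fin (k + 1), w (Fin.castSucc j) * x' j = 0 := by
        intro w hw
        rw [← hspan] at hw
        induction hw using Submodule.span_induction with
        | mem w hw =>
          obtain ⟨i, rfl⟩ := hw
          exact hx'' i
        | zero => simp
        | add w w' _ _ h1 h2 =>
          simp only [Pi.add_apply, add_mul, Finset.sum_add_distrib, h1, h2, add_zero]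
        | smul a w _ h1 =>
          simp only [Pi.smul_apply, smul_eq_mul, mul_assoc]
          rw [← Finset.mul_sum, h1, mul_zero]
      obtain ⟨y, hy0, hy, hyle⟩ := ih (fun r j => M r (Fin.castSucc j)) (fun r j => hM r _)
        ⟨x', hx0, fun r => hall _ (Submodule.subset_span ⟨r, rfl⟩)⟩
      refine ⟨Fin.snoc y 0, ?_, ?_, ?_⟩
      · intro h2
        apply hy0
        funext j
        have h3 := congrFun h2 (Fin.castSucc j)
        rw [Fin.snoc_castSucc] at h3
        exact h3
      · intro r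
        rw [Fin.sum_univ_castSucc]
        simp only [Fin.snoc_castSucc, Fin.snoc_last, mul_zero, add_zero]
        exact hy r
      · intro j
        refine Fin.lastCases ?_ (fun j => ?_) j
        · rw [Fin.snoc_last]
          simp only [ne_eq, OfNat.ofNat_ne_zero, not_false_eq_true, zero_pow, mul_zero]
          positivity
        · rw [Fin.snoc_castSucc]
          have h2 := hyle j
          rcases Nat.eq_zero_or_pos k with hk | hk
          · subst hk
            simpa using h2
          · have h3 := four_mul_pow_le k hk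
            have h3' : 4 * (k : ℤ) ^ k ≤ ((k + 1 : ℕ) : ℤ) ^ (k + 1) := by exact_mod_cast h3
            have h4 : (4 : ℤ) ^ (k + 1 - 1) = 4 * 4 ^ (k - 1) := by
              rw [Nat.add_sub_cancel, ← pow_succ', Nat.sub_add_cancel hk]
            rw [h4]
            linarith
    · have heq : finrank ℚ (Submodule.span ℚ S) = k + 1 := le_antisymm hd hge
      let g : Fin (k + 1) → Fin (finrank ℚ (Submodule.span ℚ S)) := Fin.cast heq.symm
      have h1 : ∀ i, ∃ r, (fun j => (M r j : ℚ)) = f (g i) := fun i => hf (g i)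
      choose ro hro using h1
      have hli' : LinearIndependent ℚ
          (fun i : Fin (k + 1) => (fun j => (M (ro i) j : ℚ) : Fin (k + 1 + 1) → ℚ)) := by
        have h2 : (fun i : Fin (k + 1) => (fun j => (M (ro i) j : ℚ) : Fin (k + 1 + 1) → ℚ)) =
            f ∘ g := by
          funext i
          exact hro i
        rw [h2]
        exact hli.comp g (Fin.cast_injective _)
      obtain ⟨y, hy0, hyle, hy⟩ := exists_minors (fun i => M (ro i)) (fun i j => hM _ j) hli'
      refine ⟨y, hy0, fun r => hy _ ?_, hyle⟩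
      have h2 : Set.range (fun i : Fin (k + 1) =>
          (fun j => (M (ro i) j : ℚ) : Fin (k + 1 + 1) → ℚ)) = Set.range f := by
        ext w
        constructor
        · rintro ⟨i, rfl⟩
          exact ⟨g i, (hro i).symm⟩
        · rintro ⟨i, rfl⟩
          refine ⟨Fin.cast heq i, ?_⟩
          exact hro _
      rw [h2, hspan]
      exact Submodule.subset_span ⟨r, rfl⟩

end Pool.Agent.N90.UB
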